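import Pool.Agent.Lib.MP_211f72_nt.V.Main

/-!
# The Hausdorff dimension of the level sets of `λ_n` on the first interval, for all `n ≥ 4`

For every `n ≥ 4` and every real `lam` with `1/n ≤ lam < 1/(n-1)` the set of the real numbers `ξ` with
`λ_n(ξ) = lam` has Hausdorff dimension `(2 - (n-1) lam)/(1 + lam)`.
-/

namespace Pool.Agent.Results.MP_211f72_nt.FirstInterval

theorem result (n : ℕ) (lam : ℝ) (hn : 4 ≤ n) (h1 : 1 / (n : ℝ) ≤ lam)
    (h2 : lam < 1 / ((n : ℝ) - 1)) :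
    dimH {ξ : ℝ | _root_.MP_211f72_nt.lambdaExp n ξ = (lam : EReal)} =
      ENNReal.ofReal ((2 - ((n : ℝ) - 1) * lam) / (1 + lam)) :=
  Pool.Agent.MP211V.main n lam hn h1 h2

end Pool.Agent.Results.MP_211f72_nt.FirstInterval
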