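import Pool.Agent.Lib.MP_211f72_nt.W.MainE

/-!
# The Hausdorff dimension of the level sets of `λ_n` for large exponents, all `n ≥ 5`

Let `n ≥ 5`, `l ∈ {1, 2, 3}` a divisor of `n` and `lam > (n+4-l)/(3n-l)`.  Then the set of the real numbers `ξ` with
`λ_n(ξ) = lam` has Hausdorff dimension `2/(n (1 + lam))`.
-/

namespace Pool.Agent.Results.MP_211f72_nt.LargeExponents

theorem result (n l : ℕ) (hn : 5 ≤ n) (hl1 : 1 ≤ l) (hl3 : l ≤ 3) (hd : l ∣ n) (lam : ℝ)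
    (h : ((n : ℝ) + 4 - l) / (3 * n - l) < lam) :
    dimH {ξ : ℝ | _root_.MP_211f72_nt.lambdaExp n ξ = (lam : EReal)} =
      ENNReal.ofReal (2 / ((n : ℝ) * (1 + lam))) :=
  Pool.Agent.MP211W.mainLarge n l hn hl1 hl3 hd lam h

end Pool.Agent.Results.MP_211f72_nt.LargeExponents
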