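import Pool.Agent.Lib.MP_211f72_nt.MainThm

/-!
# The Hausdorff dimension of the level sets of the exponent `λ_3`, for all values

For every real `lam ≥ 1/3` the set of the real numbers `ξ` with `λ_3(ξ) = lam` has Hausdorff dimension
`max ((2 - 2 lam)/(1 + lam), 2/(3 (1 + lam)))`.
-/

namespace Pool.Agent.Results.MP_211f72_nt.LevelSetsThree

theorem result (lam : ℝ) (hlam : 1 / 3 ≤ lam) :
    dimH {ξ : ℝ | _root_.MP_211f72_nt.lambdaExp 3 ξ = (lam : EReal)} =
      ENNReal.ofReal (max ((2 - 2 * lam) / (1 + lam)) (2 / (3 * (1 + lam)))) :=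
  _root_.MP_211f72_nt.main lam hlam

end Pool.Agent.Results.MP_211f72_nt.LevelSetsThree
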