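import Pool.Agent.Lib.MP_211f72_nt.W.MainE

/-!
# The Hausdorff dimension of the level sets of `λ_n` for `n` divisible by 4 or 6, beyond `(n+8)/(5n+4)`

For every `n ≥ 4` divisible by 4 or by 6 and every real `lam > (n+8)/(5n+4)` the set of the real numbers `ξ` with
`λ_n(ξ) = lam` has Hausdorff dimension `max (2/n, 3 (1 - lam)/(n-1)) / (1 + lam)`.
-/

namespace Pool.Agent.Results.MP_211f72_nt.MultiplesFourSix

theorem result (n : ℕ) (hn : 4 ≤ n) (hd : 4 ∣ n ∨ 6 ∣ n) (lam : ℝ)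
    (h : ((n : ℝ) + 8) / (5 * n + 4) < lam) :
    dimH {ξ : ℝ | _root_.MP_211f72_nt.lambdaExp n ξ = (lam : EReal)} =
      ENNReal.ofReal (max (2 / (n : ℝ)) (3 * (1 - lam) / ((n : ℝ) - 1)) / (1 + lam)) :=
  Pool.Agent.MP211W.mainMult n hn hd lam h

end Pool.Agent.Results.MP_211f72_nt.MultiplesFourSix
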